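import Mathlib

/-!
# MP_5df1f6_co : missing frustrated-triangle counts for graphs with few edges

For a graph with `t` edges on `n` vertices let `c` be the number of triples inducing at least two
edges.  Then `f = t (n - 2) - 2 c`.  We determine the possible values of `c`: an integer
`0 ≤ c ≤ C(t,2)` is missing exactly when `C(s,2) + C(t-s+1,2) < c < C(s+1,2)` for some `s < t`.
-/

namespace Pool.Agent.Results.MP_5df1f6_co.MissingCounts

open Finset

noncomputable section

open Classical

variable {n : ℕ}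

/-- The triples of vertices. -/
def triples (n : ℕ) : Finset (Finset (Fin n)) := powersetCard 3 univ

/-- The edges of `G` with both ends in `T`. -/
def edgesIn (G : SimpleGraph (Fin n)) (T : Finset (Fin n)) : Finset (Sym2 (Fin n)) :=
  G.edgeFinset.filter (fun e => ∀ x ∈ e, x ∈ T)

/-- The number `f(G)` of frustrated triples: triples inducing an odd number of edges. -/
def frus (G : SimpleGraph (Fin n)) : ℕ := #{T ∈ triples n | Odd #(edgesIn G T)}

/-- The set `S_t` of values of `f` on graphs with `n` vertices and `t` edges. -/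
def S (n t : ℕ) : Set ℤ :=
  {m | ∃ G : SimpleGraph (Fin n), #G.edgeFinset = t ∧ (frus G : ℤ) = m}

/-- `a_t = t (n - t - 1)`. -/
def aa (n t : ℕ) : ℤ := t * (n - t - 1)

/-- `b_t = t (n - 2)`. -/
def bb (n t : ℕ) : ℤ := t * (n - 2)

/-- The triples inducing at least two edges. -/
def con (G : SimpleGraph (Fin n)) : Finset (Finset (Fin n)) :=
  {T ∈ triples n | 2 ≤ #(edgesIn G T)}

/-! ### Edges in a triple -/

lemma mem_edgesIn {G : SimpleGraph (Fin n)} {T : Finset (Fin n)} {a b : Fin n} :
    s(a, b) ∈ edgesIn G T ↔ G.Adj a b ∧ a ∈ T ∧ b ∈ T := by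
  unfold edgesIn
  rw [mem_filter, SimpleGraph.mem_edgeFinset, SimpleGraph.mem_edgeSet]
  simp

lemma edgesIn_triple (G : SimpleGraph (Fin n)) {x y z : Fin n} :
    edgesIn G {x, y, z} =
      ({s(x, y), s(x, z), s(y, z)} : Finset (Sym2 (Fin n))).filter (fun e => e ∈ G.edgeSet) := by
  ext e
  induction e using Sym2.ind with
  | _ a b =>
    rw [mem_edgesIn, mem_filter, SimpleGraph.mem_edgeSet]
    constructor
    · rintro ⟨h, ha, hb⟩
      refine ⟨?_, h⟩
      have hne := h.ne
      simp only [mem_insert, mem_singleton] at ha hb ⊢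
      rcases ha with rfl | rfl | rfl <;> rcases hb with rfl | rfl | rfl <;>
        simp_all [Sym2.eq_swap]
    · rintro ⟨h1, h⟩
      refine ⟨h, ?_⟩
      simp only [mem_insert, mem_singleton, Sym2.eq_iff] at h1 ⊢
      rcases h1 with (⟨rfl, rfl⟩ | ⟨rfl, rfl⟩) | (⟨rfl, rfl⟩ | ⟨rfl, rfl⟩) |
        (⟨rfl, rfl⟩ | ⟨rfl, rfl⟩) <;> simp

lemma card_edgesIn_le (G : SimpleGraph (Fin n)) {T : Finset (Fin n)} (hT : T ∈ triples n) :
    #(edgesIn G T) ≤ 3 := by
  obtain ⟨x, y, z, -, -, -, rfl⟩ := card_eq_three.1 (mem_powersetCard.1 hT).2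
  rw [edgesIn_triple]
  exact (card_filter_le _ _).trans card_le_three

/-- Two different non-diagonal pairs lie in at most one triple. -/
lemma unique_triple {e e' : Sym2 (Fin n)} (he : ¬ e.IsDiag) (he' : ¬ e'.IsDiag) (hne : e ≠ e')
    {T : Finset (Fin n)} (hT : T ∈ triples n) (h1 : ∀ x ∈ e, x ∈ T) (h2 : ∀ x ∈ e', x ∈ T) :
    T = e.toFinset ∪ e'.toFinset := by
  have hc : #T = 3 := (mem_powersetCard.1 hT).2
  have hsub : e.toFinset ∪ e'.toFinset ⊆ T := by
    intro x hx
    rw [mem_union, Sym2.mem_toFinset, Sym2.mem_toFinset] at hx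
    exact hx.elim (h1 x) (h2 x)
  symm
  apply eq_of_subset_of_card_le hsub
  rw [hc]
  have c1 : #e.toFinset = 2 := Sym2.card_toFinset_of_not_isDiag e he
  have c2 : #e'.toFinset = 2 := Sym2.card_toFinset_of_not_isDiag e' he'
  by_contra hlt
  push Not at hlt
  have hle : #(e.toFinset ∪ e'.toFinset) ≤ 2 := by omega
  have e1 : e.toFinset = e.toFinset ∪ e'.toFinset :=
    eq_of_subset_of_card_le subset_union_left (by omega)
  have e2 : e'.toFinset = e.toFinset ∪ e'.toFinset :=
    eq_of_subset_of_card_le subset_union_right (by omega)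
  apply hne
  have e3 : e.toFinset = e'.toFinset := e1.trans e2.symm
  apply Sym2.ext
  intro x
  rw [← Sym2.mem_toFinset, ← Sym2.mem_toFinset, e3]

/-! ### Double counts -/

lemma sum_edgesIn (G : SimpleGraph (Fin n)) :
    ∑ T ∈ triples n, #(edgesIn G T) = #G.edgeFinset * (n - 2) := by
  have h1 : ∀ T, #(edgesIn G T) = ∑ e ∈ G.edgeFinset, if (∀ x ∈ e, x ∈ T) then 1 else 0 := by
    intro T
    unfold edgesIn
    rw [card_filter]
  simp_rw [h1]
  rw [sum_comm, card_eq_sum_ones, sum_mul]
  apply sum_congr rfl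
  intro e he
  rw [one_mul, ← card_filter]
  induction e using Sym2.ind with
  | _ a b =>
    rw [SimpleGraph.mem_edgeFinset, SimpleGraph.mem_edgeSet] at he
    have hab : a ≠ b := he.ne
    have : (triples n).filter (fun T => ∀ x ∈ s(a, b), x ∈ T) =
        ((univ \ {a, b} : Finset (Fin n))).image (fun z => {a, b, z}) := by
      ext T
      rw [mem_filter, mem_image]
      unfold triples
      rw [mem_powersetCard]
      constructor
      · rintro ⟨⟨-, hc⟩, hT⟩
        have ha : a ∈ T := hT a (by simp)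
        have hb : b ∈ T := hT b (by simp)
        have hsub : ({a, b} : Finset (Fin n)) ⊆ T := by
          intro x hx
          simp only [mem_insert, mem_singleton] at hx
          rcases hx with rfl | rfl <;> assumption
        have hd : #(T \ {a, b}) = 1 := by
          rw [card_sdiff_of_subset hsub, hc, card_pair hab]
        obtain ⟨z, hz⟩ := card_eq_one.1 hd
        have hz' : z ∈ T \ {a, b} := by rw [hz]; simp
        refine ⟨z, ?_, ?_⟩
        · rw [mem_sdiff] at hz' ⊢
          exact ⟨mem_univ _, hz'.2⟩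
        · rw [← union_sdiff_of_subset hsub, hz]
          ext x
          simp
      · rintro ⟨z, hz, rfl⟩
        rw [mem_sdiff] at hz
        simp only [mem_insert, mem_singleton, not_or] at hz
        refine ⟨⟨subset_univ _, ?_⟩, ?_⟩
        · exact card_eq_three.2 ⟨a, b, z, hab, Ne.symm hz.2.1, Ne.symm hz.2.2, rfl⟩
        · intro x hx
          rw [Sym2.mem_iff] at hx
          rcases hx with rfl | rfl <;> simp
    rw [this, card_image_of_injOn]
    · rw [card_sdiff_of_subset (subset_univ _), card_univ, Fintype.card_fin, card_pair hab]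
    · intro z hz w hw hzw
      rw [mem_coe, mem_sdiff] at hz hw
      simp only [mem_insert, mem_singleton, not_or] at hz hw
      have : z ∈ ({a, b, w} : Finset (Fin n)) := by
        change (fun z => ({a, b, z} : Finset (Fin n))) z =
          (fun z => ({a, b, z} : Finset (Fin n))) w at hzw
        simp only at hzw
        rw [← hzw]
        simp
      simp only [mem_insert, mem_singleton] at this
      rcases this with h | h | h
      · exact absurd h hz.2.1
      · exact absurd h hz.2.2
      · exact h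

/-- `f(G) + 2 c(G) = t (n - 2)`. -/
lemma frus_add (G : SimpleGraph (Fin n)) :
    frus G + 2 * #(con G) = #G.edgeFinset * (n - 2) := by
  rw [← sum_edgesIn G]
  unfold frus con
  rw [card_filter, card_filter, mul_sum, ← sum_add_distrib]
  apply sum_congr rfl
  intro T hT
  have h := card_edgesIn_le G hT
  generalize #(edgesIn G T) = k at h
  interval_cases k <;> decide

/-- The pairs of a family `F` of non-diagonal pairs are contained in at most one triple each. -/
lemma sum_choose_le (F : Finset (Sym2 (Fin n))) (hF : ∀ e ∈ F, ¬ e.IsDiag) :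
    ∑ T ∈ triples n, (#(F.filter (fun e => ∀ x ∈ e, x ∈ T))).choose 2 ≤ (#F).choose 2 := by
  have h1 : ∀ T : Finset (Fin n), (#(F.filter (fun e => ∀ x ∈ e, x ∈ T))).choose 2 =
      ∑ P ∈ powersetCard 2 F, if (∀ e ∈ P, ∀ x ∈ e, x ∈ T) then 1 else 0 := by
    intro T
    rw [← card_powersetCard, ← card_filter]
    congr 1
    ext P
    simp only [mem_powersetCard, mem_filter]
    constructor
    · rintro ⟨h, hc⟩
      exact ⟨⟨fun e he => (mem_filter.1 (h he)).1, hc⟩, fun e he => (mem_filter.1 (h he)).2⟩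
    · rintro ⟨⟨h, hc⟩, h2⟩
      exact ⟨fun e he => mem_filter.2 ⟨h he, h2 e he⟩, hc⟩
  simp_rw [h1]
  rw [sum_comm, ← card_powersetCard 2 F, card_eq_sum_ones]
  apply sum_le_sum
  intro P hP
  rw [← card_filter, card_le_one]
  obtain ⟨hPF, hPc⟩ := mem_powersetCard.1 hP
  obtain ⟨e, e', hne, rfl⟩ := card_eq_two.1 hPc
  intro T hT T' hT'
  rw [mem_filter] at hT hT'
  have he : e ∈ F := hPF (by simp)
  have he' : e' ∈ F := hPF (by simp)
  rw [unique_triple (hF e he) (hF e' he') hne hT.1 (hT.2 e (by simp)) (hT.2 e' (by simp)),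
    unique_triple (hF e he) (hF e' he') hne hT'.1 (hT'.2 e (by simp)) (hT'.2 e' (by simp))]

/-! ### The cherries at a vertex -/

/-- The triples consisting of `v` and two of its neighbours. -/
def cher (G : SimpleGraph (Fin n)) (v : Fin n) : Finset (Finset (Fin n)) :=
  (powersetCard 2 (G.neighborFinset v)).image (fun P => insert v P)

lemma card_cher (G : SimpleGraph (Fin n)) (v : Fin n) :
    #(cher G v) = (G.degree v).choose 2 := by
  unfold cher
  rw [card_image_of_injOn, card_powersetCard, SimpleGraph.card_neighborFinset_eq_degree]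
  intro P hP Q hQ h
  rw [mem_coe, mem_powersetCard] at hP hQ
  have hvP : v ∉ P := fun hv => by
    have := hP.1 hv
    simp at this
  have hvQ : v ∉ Q := fun hv => by
    have := hQ.1 hv
    simp at this
  have h' : (insert v P).erase v = (insert v Q).erase v := by
    change insert v P = insert v Q at h
    rw [h]
  rwa [erase_insert hvP, erase_insert hvQ] at h'

lemma two_le_iff (G : SimpleGraph (Fin n)) {x y z : Fin n} (hxy : x ≠ y) (hxz : x ≠ z)
    (hyz : y ≠ z) : 2 ≤ #(edgesIn G {x, y, z}) ↔
      (G.Adj x y ∧ G.Adj x z) ∨ (G.Adj x y ∧ G.Adj y z) ∨ (G.Adj x z ∧ G.Adj y z) := by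
  rw [edgesIn_triple]
  have n1 : s(x, y) ≠ s(x, z) := by
    intro h
    rw [Sym2.eq_iff] at h
    rcases h with ⟨-, h⟩ | ⟨h, -⟩
    · exact hyz h
    · exact hxz h
  have n2 : s(x, y) ≠ s(y, z) := by
    intro h
    rw [Sym2.eq_iff] at h
    rcases h with ⟨h, -⟩ | ⟨h, -⟩
    · exact hxy h
    · exact hxz h
  have n3 : s(x, z) ≠ s(y, z) := by
    intro h
    rw [Sym2.eq_iff] at h
    rcases h with ⟨h, -⟩ | ⟨h, -⟩
    · exact hxy h
    · exact hxz h
  rw [card_filter, sum_insert (by simp [n1, n2]), sum_insert (by simp [n3]), sum_singleton]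
  simp only [SimpleGraph.mem_edgeSet]
  by_cases h1 : G.Adj x y <;> by_cases h2 : G.Adj x z <;> by_cases h3 : G.Adj y z <;>
    simp [h1, h2, h3]

lemma con_eq (G : SimpleGraph (Fin n)) : con G = univ.biUnion (cher G) := by
  ext T
  unfold con cher triples
  rw [mem_filter, mem_biUnion, mem_powersetCard]
  constructor
  · rintro ⟨⟨-, hc⟩, h⟩
    obtain ⟨x, y, z, hxy, hxz, hyz, rfl⟩ := card_eq_three.1 hc
    rw [two_le_iff G hxy hxz hyz] at h
    rcases h with ⟨h1, h2⟩ | ⟨h1, h2⟩ | ⟨h1, h2⟩
    · refine ⟨x, mem_univ _, mem_image.2 ⟨{y, z}, ?_, rfl⟩⟩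
      rw [mem_powersetCard]
      refine ⟨?_, card_pair hyz⟩
      intro w hw
      simp only [mem_insert, mem_singleton] at hw
      rw [SimpleGraph.mem_neighborFinset]
      rcases hw with rfl | rfl <;> assumption
    · refine ⟨y, mem_univ _, mem_image.2 ⟨{x, z}, ?_, ?_⟩⟩
      · rw [mem_powersetCard]
        refine ⟨?_, card_pair hxz⟩
        intro w hw
        simp only [mem_insert, mem_singleton] at hw
        rw [SimpleGraph.mem_neighborFinset]
        rcases hw with rfl | rfl
        · exact h1.symm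
        · exact h2
      · ext w
        simp only [mem_insert, mem_singleton]
        tauto
    · refine ⟨z, mem_univ _, mem_image.2 ⟨{x, y}, ?_, ?_⟩⟩
      · rw [mem_powersetCard]
        refine ⟨?_, card_pair hxy⟩
        intro w hw
        simp only [mem_insert, mem_singleton] at hw
        rw [SimpleGraph.mem_neighborFinset]
        rcases hw with rfl | rfl
        · exact h1.symm
        · exact h2.symm
      · ext w
        simp only [mem_insert, mem_singleton]
        tauto
  · rintro ⟨v, -, hT⟩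
    obtain ⟨P, hP, rfl⟩ := mem_image.1 hT
    obtain ⟨hPN, hPc⟩ := mem_powersetCard.1 hP
    obtain ⟨x, y, hxy, rfl⟩ := card_eq_two.1 hPc
    have hx : G.Adj v x := by
      have := hPN (mem_insert_self x {y})
      rwa [SimpleGraph.mem_neighborFinset] at this
    have hy : G.Adj v y := by
      have : y ∈ G.neighborFinset v := hPN (by simp)
      rwa [SimpleGraph.mem_neighborFinset] at this
    refine ⟨⟨subset_univ _, card_eq_three.2 ⟨v, x, y, hx.ne, hy.ne, hxy, rfl⟩⟩, ?_⟩
    rw [two_le_iff G hx.ne hy.ne hxy]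
    exact Or.inl ⟨hx, hy⟩

lemma choose_degree_le (G : SimpleGraph (Fin n)) (v : Fin n) :
    (G.degree v).choose 2 ≤ #(con G) := by
  rw [← card_cher, con_eq]
  exact card_le_card (subset_biUnion_of_mem (cher G) (mem_univ v))

lemma con_le_sum (G : SimpleGraph (Fin n)) : #(con G) ≤ ∑ v, (G.degree v).choose 2 := by
  rw [con_eq]
  refine card_biUnion_le.trans ?_
  apply le_of_eq
  apply sum_congr rfl
  intro v _
  exact card_cher G v

/-- Equality for triangle-free graphs. -/
lemma con_eq_sum (G : SimpleGraph (Fin n))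
    (h : ∀ x y z, G.Adj x y → G.Adj y z → G.Adj x z → False) :
    #(con G) = ∑ v, (G.degree v).choose 2 := by
  rw [con_eq, card_biUnion]
  · apply sum_congr rfl
    intro v _
    exact card_cher G v
  · intro v _ w _ hvw
    change Disjoint (cher G v) (cher G w)
    rw [disjoint_left]
    intro T hT hT'
    unfold cher at hT hT'
    obtain ⟨P, hP, rfl⟩ := mem_image.1 hT
    obtain ⟨Q, hQ, hPQ⟩ := mem_image.1 hT'
    obtain ⟨hPN, hPc⟩ := mem_powersetCard.1 hP
    obtain ⟨hQN, hQc⟩ := mem_powersetCard.1 hQ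
    change insert w Q = insert v P at hPQ
    -- `w ∈ P`, so `v ~ w`; the third vertex is adjacent to both
    have hwP : w ∈ P := by
      have : w ∈ insert v P := by rw [← hPQ]; simp
      rcases mem_insert.1 this with h1 | h1
      · exact absurd h1.symm hvw
      · exact h1
    have hvw' : G.Adj v w := by
      have := hPN hwP
      rwa [SimpleGraph.mem_neighborFinset] at this
    have hd : 0 < #(P.erase w) := by
      rw [card_erase_of_mem hwP, hPc]
      norm_num
    obtain ⟨z, hz⟩ := card_pos.1 hd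
    have hzP : z ∈ P := mem_of_mem_erase hz
    have hzw : z ≠ w := ne_of_mem_erase hz
    have hvz : G.Adj v z := by
      have := hPN hzP
      rwa [SimpleGraph.mem_neighborFinset] at this
    have hzQ : z ∈ Q := by
      have : z ∈ insert w Q := by rw [hPQ]; exact mem_insert_of_mem hzP
      rcases mem_insert.1 this with h1 | h1
      · exact absurd h1 hzw
      · exact h1
    have hwz : G.Adj w z := by
      have := hQN hzQ
      rwa [SimpleGraph.mem_neighborFinset] at this
    exact h v w z hvw' hwz hvz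

/-! ### The upper bound at a vertex -/

lemma con_le (G : SimpleGraph (Fin n)) (v : Fin n) :
    #(con G) ≤ (G.degree v).choose 2 + (#G.edgeFinset + 1 - G.degree v).choose 2 := by
  -- edges at `v` and the other edges
  set E := G.edgeFinset with hE
  set A := E.filter (fun e => v ∈ e) with hA
  set B := E.filter (fun e => v ∉ e) with hB
  have hcardA : #A = G.degree v := by
    rw [hA, hE, ← SimpleGraph.card_incidenceFinset_eq_degree, SimpleGraph.incidenceFinset_eq_filter]
  have hcardAB : #A + #B = #E := by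
    rw [hA, hB]
    exact card_filter_add_card_filter_not _
  have hdiag : ∀ e ∈ E, ¬ e.IsDiag := by
    intro e he
    rw [hE, SimpleGraph.mem_edgeFinset] at he
    exact G.not_isDiag_of_mem_edgeSet he
  have hA1 := sum_choose_le A (fun e he => hdiag e (mem_filter.1 he).1)
  have hB1 := sum_choose_le B (fun e he => hdiag e (mem_filter.1 he).1)
  -- the third sum
  have hC1 : ∑ T ∈ triples n, (if v ∈ T then #(B.filter (fun e => ∀ x ∈ e, x ∈ T)) else 0) ≤
      #B := by
    have h1 : ∀ T : Finset (Fin n), (if v ∈ T then #(B.filter (fun e => ∀ x ∈ e, x ∈ T)) else 0) =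
        ∑ e ∈ B, if (v ∈ T ∧ ∀ x ∈ e, x ∈ T) then 1 else 0 := by
      intro T
      split_ifs with hv
      · rw [card_filter]
        apply sum_congr rfl
        intro e _
        simp [hv]
      · simp [hv]
    simp_rw [h1]
    rw [sum_comm, card_eq_sum_ones]
    apply sum_le_sum
    intro e he
    rw [← card_filter, card_le_one]
    have hve : v ∉ e := (mem_filter.1 he).2
    have hed : ¬ e.IsDiag := hdiag e (mem_filter.1 he).1
    have key : ∀ T ∈ triples n, v ∈ T → (∀ x ∈ e, x ∈ T) → T = insert v e.toFinset := by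
      intro T hT hv hx
      symm
      apply eq_of_subset_of_card_le
      · intro x hx'
        rcases mem_insert.1 hx' with rfl | h2
        · exact hv
        · exact hx x (Sym2.mem_toFinset.1 h2)
      · rw [(mem_powersetCard.1 hT).2, card_insert_of_notMem (by rwa [Sym2.mem_toFinset]),
          Sym2.card_toFinset_of_not_isDiag e hed]
    intro T hT T' hT'
    rw [mem_filter] at hT hT'
    rw [key T hT.1 hT.2.1 hT.2.2, key T' hT'.1 hT'.2.1 hT'.2.2]
  have hmain : #(con G) ≤ ∑ T ∈ triples n,
      ((#(A.filter (fun e => ∀ x ∈ e, x ∈ T))).choose 2 +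
        (if v ∈ T then #(B.filter (fun e => ∀ x ∈ e, x ∈ T)) else 0) +
        (#(B.filter (fun e => ∀ x ∈ e, x ∈ T))).choose 2) := by
    unfold con
    rw [card_filter]
    apply sum_le_sum
    intro T hT
    split_ifs with h2 hv
    · have hsum : #(edgesIn G T) = #(A.filter (fun e => ∀ x ∈ e, x ∈ T)) +
          #(B.filter (fun e => ∀ x ∈ e, x ∈ T)) := by
        unfold edgesIn
        rw [hA, hB, filter_filter, filter_filter]
        rw [← card_filter_add_card_filter_not (s := G.edgeFinset.filter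
          (fun e => ∀ x ∈ e, x ∈ T)) (fun e => v ∈ e), filter_filter, filter_filter]
        congr 2 <;>
        · ext e
          simp only [mem_filter, hE]
          tauto
      set k := #(A.filter (fun e => ∀ x ∈ e, x ∈ T))
      set l := #(B.filter (fun e => ∀ x ∈ e, x ∈ T))
      rw [hsum] at h2
      rcases Nat.lt_or_ge k 2 with hk | hk
      · omega
      · have : 0 < k.choose 2 := Nat.choose_pos hk
        omega
    · have hA0 : A.filter (fun e => ∀ x ∈ e, x ∈ T) = ∅ := by
        rw [filter_eq_empty_iff]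
        intro e he h3
        exact hv (h3 v (mem_filter.1 he).2)
      have hsum : #(edgesIn G T) = #(B.filter (fun e => ∀ x ∈ e, x ∈ T)) := by
        unfold edgesIn
        congr 1
        ext e
        rw [hB, mem_filter, mem_filter, mem_filter]
        constructor
        · rintro ⟨h3, h4⟩
          exact ⟨⟨h3, fun h5 => hv (h4 v h5)⟩, h4⟩
        · rintro ⟨⟨h3, -⟩, h4⟩
          exact ⟨h3, h4⟩
      rw [hsum] at h2
      have : 0 < (#(B.filter (fun e => ∀ x ∈ e, x ∈ T))).choose 2 := Nat.choose_pos h2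
      omega
    · exact Nat.zero_le _
    · exact Nat.zero_le _
  rw [sum_add_distrib, sum_add_distrib] at hmain
  have hlast : (#E + 1 - G.degree v).choose 2 = #B + (#B).choose 2 := by
    have : #E + 1 - G.degree v = #B + 1 := by omega
    rw [this, Nat.choose_succ_succ' (#B) 1, Nat.choose_one_right]
  rw [hlast, ← hcardA]
  omega

/-! ### The gaps -/

lemma two_choose (m : ℕ) : 2 * (m.choose 2 : ℤ) = m * (m - 1) := by
  have h := Nat.choose_two_right m
  have h2 : m * (m - 1) % 2 = 0 := Nat.even_iff.1 (Nat.even_mul_pred_self m)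
  rcases Nat.eq_zero_or_pos m with rfl | hm
  · simp
  · have h3 : 2 * m.choose 2 = m * (m - 1) := by omega
    have h4 : ((2 * m.choose 2 : ℕ) : ℤ) = ((m * (m - 1) : ℕ) : ℤ) := by rw [h3]
    push_cast [Nat.cast_sub hm] at h4
    exact h4

lemma gap (G : SimpleGraph (Fin n)) {s : ℕ} (hs : s < #G.edgeFinset)
    (h1 : s.choose 2 + (#G.edgeFinset + 1 - s).choose 2 < #(con G))
    (h2 : #(con G) < (s + 1).choose 2) : False := by
  set t := #G.edgeFinset with ht
  have hdeg : ∀ v, G.degree v ≤ s := by
    intro v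
    by_contra hlt
    push Not at hlt
    have h3 := choose_degree_le G v
    have h4 : (s + 1).choose 2 ≤ (G.degree v).choose 2 := Nat.choose_le_choose 2 hlt
    omega
  have es := two_choose s
  have es1 := two_choose (s + 1)
  have ets := two_choose (t + 1 - s)
  have ecast : ((t + 1 - s : ℕ) : ℤ) = (t : ℤ) + 1 - s := by
    rw [Nat.cast_sub (by omega)]
    push_cast
    ring
  rw [ecast] at ets
  push_cast at es1
  by_cases hbig : ∃ v, t + 1 - s ≤ G.degree v
  · obtain ⟨v, hv⟩ := hbig
    have h3 := con_le G v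
    rw [← ht] at h3
    have hd := hdeg v
    set d := G.degree v
    have ed := two_choose d
    have etd := two_choose (t + 1 - d)
    have edcast : ((t + 1 - d : ℕ) : ℤ) = (t : ℤ) + 1 - d := by
      rw [Nat.cast_sub (by omega)]
      push_cast
      ring
    rw [edcast] at etd
    have h4 : (s.choose 2 : ℤ) + ((t + 1 - s).choose 2 : ℤ) <
        (d.choose 2 : ℤ) + ((t + 1 - d).choose 2 : ℤ) := by
      have : s.choose 2 + (t + 1 - s).choose 2 < d.choose 2 + (t + 1 - d).choose 2 := by omega
      exact_mod_cast this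
    have h5 : (0 : ℤ) ≤ ((s : ℤ) - d) * ((d : ℤ) - (t + 1 - s)) := by
      apply mul_nonneg
      · have : (d : ℤ) ≤ s := by exact_mod_cast hd
        linarith
      · have : (t + 1 - s : ℤ) ≤ d := by
          have h6 : ((t + 1 - s : ℕ) : ℤ) ≤ (d : ℤ) := by exact_mod_cast hv
          rw [ecast] at h6
          exact h6
        linarith
    nlinarith
  · push Not at hbig
    -- all degrees are at most `j = t - s`
    have h3 := con_le_sum G
    have h4 := G.sum_degrees_eq_twice_card_edges
    rw [← ht] at h4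
    have h5 : (2 * #(con G) : ℤ) ≤ ((t : ℤ) - s - 1) * (2 * t) := by
      have h6 : (#(con G) : ℤ) ≤ ∑ v, ((G.degree v).choose 2 : ℤ) := by exact_mod_cast h3
      have h7 : (∑ v, (G.degree v : ℤ)) = 2 * t := by exact_mod_cast h4
      calc (2 * #(con G) : ℤ) ≤ 2 * ∑ v, ((G.degree v).choose 2 : ℤ) := by linarith
        _ = ∑ v, (2 * ((G.degree v).choose 2 : ℤ)) := by rw [mul_sum]
        _ = ∑ v, ((G.degree v : ℤ) * ((G.degree v : ℤ) - 1)) := by
            apply sum_congr rfl
            intro v _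
            exact two_choose _
        _ ≤ ∑ v, ((t : ℤ) - s - 1) * (G.degree v : ℤ) := by
            apply sum_le_sum
            intro v _
            have h8 : (G.degree v : ℤ) ≤ (t : ℤ) - s := by
              have := hbig v
              omega
            have h9 : (0 : ℤ) ≤ (G.degree v : ℤ) := by positivity
            nlinarith
        _ = ((t : ℤ) - s - 1) * (2 * t) := by rw [← mul_sum, h7]
    have hj : (1 : ℤ) ≤ (t : ℤ) - s := by omega
    have g1 : (s.choose 2 : ℤ) + ((t + 1 - s).choose 2 : ℤ) + 1 ≤ #(con G) := by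
      exact_mod_cast h1
    have g2 : (#(con G) : ℤ) + 1 ≤ ((s + 1).choose 2 : ℤ) := by exact_mod_cast h2
    obtain ⟨j, hj'⟩ : ∃ j : ℤ, j = (t : ℤ) - s := ⟨_, rfl⟩
    have ht' : (t : ℤ) = s + j := by linarith
    rw [← hj'] at hj
    have es2 : ((t : ℤ) + 1 - s) = j + 1 := by linarith
    rw [es2] at ets
    rw [ht'] at h5
    have es3 : ((s : ℤ) + j - s - 1) = j - 1 := by ring
    rw [es3] at h5
    -- `j (j + 1) ≤ 2 (s - 2)`
    have hA : j * (j + 1) ≤ 2 * ((s : ℤ) - 2) := by nlinarith
    -- `s (s - 1) + j (j + 1) + 2 ≤ 2 (j - 1) (s + j)`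
    have hB : (s : ℤ) * (s - 1) + j * (j + 1) + 2 ≤ 2 * ((j - 1) * (s + j)) := by nlinarith
    have hC : (0 : ℤ) ≤ (2 * (s : ℤ) - 4 - j * (j + 1)) * s := by
      apply mul_nonneg
      · linarith
      · positivity
    have hs1 : (3 : ℤ) ≤ s := by nlinarith
    have hq : (0 : ℤ) ≤ (j - 1) * (j - 2) := by
      rcases eq_or_lt_of_le hj with h | h
      · rw [← h]
        norm_num
      · apply mul_nonneg <;> linarith
    nlinarith [mul_nonneg hq (by linarith : (0 : ℤ) ≤ (s : ℤ) - 3)]

/-! ### The constructions -/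

lemma card_fin {q : Fin n → Prop} (A : Finset ℕ) (hA : ∀ b ∈ A, b < n)
    (hq : ∀ b : Fin n, q b ↔ (b : ℕ) ∈ A) : #(univ.filter q) = #A := by
  rw [← card_map Fin.valEmbedding]
  congr 1
  ext b
  simp only [mem_map, mem_filter, mem_univ, true_and, Fin.valEmbedding_apply]
  constructor
  · rintro ⟨c, hc, rfl⟩
    exact (hq c).1 hc
  · intro hb
    exact ⟨⟨b, hA b hb⟩, (hq ⟨b, hA b hb⟩).2 hb, rfl⟩

/-- The edges of the double star with parameters `s`, `i`, `r` and `k` isolated edges. -/
def R (s i r k a b : ℕ) : Prop :=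
  (a = 0 ∧ 2 ≤ b ∧ b < 2 + s) ∨ (a = 1 ∧ 2 + s - r ≤ b ∧ b < 2 + s - r + i) ∨
  (2 + s - r + i ≤ a ∧ b = a + 1 ∧ (a - (2 + s - r + i)) % 2 = 0 ∧ b < 2 + s - r + i + 2 * k)

/-- The graph. -/
def DS (n s i r k : ℕ) (hr : r ≤ s) : SimpleGraph (Fin n) where
  Adj a b := R s i r k a b ∨ R s i r k b a
  symm := ⟨fun _ _ h => h.symm⟩
  loopless := ⟨fun a h => by
    unfold R at h
    omega⟩

/-- The neighbourhoods. -/
def NN (s i r k a : ℕ) : Finset ℕ :=
  if a = 0 then Ico 2 (2 + s) else if a = 1 then Ico (2 + s - r) (2 + s - r + i)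
  else if a < 2 + s - r + i then
    (if a < 2 + s then {0} else ∅) ∪ (if 2 + s - r ≤ a then {1} else ∅)
  else if a < 2 + s - r + i + 2 * k then
    (if (a - (2 + s - r + i)) % 2 = 0 then {a + 1} else {a - 1})
  else ∅

lemma degree_DS {s i r k : ℕ} (hr : r ≤ s) (hri : r ≤ i) (hn : 2 + s + i + 2 * k ≤ n)
    (v : Fin n) : (DS n s i r k hr).degree v = #(NN s i r k v) := by
  rw [← SimpleGraph.card_neighborFinset_eq_degree, SimpleGraph.neighborFinset_eq_filter]
  apply card_fin
  · intro b hb
    have hv := v.2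
    unfold NN at hb
    split_ifs at hb <;> simp at hb <;> omega
  · intro b
    have hv := v.2
    have hb := b.2
    change (R s i r k v b ∨ R s i r k b v) ↔ _
    unfold R NN
    split_ifs <;> simp <;> omega

lemma card_NN {s i r k : ℕ} (hr : r ≤ s) (hri : r ≤ i) (a : ℕ) : #(NN s i r k a) =
    (if a = 0 then s else 0) + (if a = 1 then i else 0) + (if a ∈ Ico 2 (2 + s) then 1 else 0) +
    (if a ∈ Ico (2 + s - r) (2 + s - r + i) then 1 else 0) +
    (if a ∈ Ico (2 + s - r + i) (2 + s - r + i + 2 * k) then 1 else 0) := by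
  unfold NN
  simp only [mem_Ico]
  split_ifs <;> simp <;> omega

lemma choose_NN {s i r k : ℕ} (hr : r ≤ s) (hri : r ≤ i) (a : ℕ) :
    (#(NN s i r k a)).choose 2 =
    (if a = 0 then s.choose 2 else 0) + (if a = 1 then i.choose 2 else 0) +
    (if a ∈ Ico (2 + s - r) (2 + s) then 1 else 0) := by
  rcases Nat.lt_or_ge a 2 with h | h
  · rw [card_NN hr hri]
    have h1 : a ∉ Ico 2 (2 + s) := by rw [mem_Ico]; omega
    have h2 : a ∉ Ico (2 + s - r) (2 + s - r + i) := by rw [mem_Ico]; omega
    have h3 : a ∉ Ico (2 + s - r + i) (2 + s - r + i + 2 * k) := by rw [mem_Ico]; omega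
    have h4 : a ∉ Ico (2 + s - r) (2 + s) := by rw [mem_Ico]; omega
    rw [if_neg h1, if_neg h2, if_neg h3, if_neg h4]
    interval_cases a <;> simp
  · have h0 : a ≠ 0 := by omega
    have h1 : a ≠ 1 := by omega
    rw [card_NN hr hri, if_neg h0, if_neg h1, if_neg h0, if_neg h1]
    simp only [mem_Ico]
    split_ifs <;> first | rfl | omega

lemma sum_ind (A : Finset ℕ) (hA : ∀ b ∈ A, b < n) :
    ∑ a ∈ range n, (if a ∈ A then 1 else 0) = #A := by
  rw [← card_filter]
  congr 1
  ext b
  rw [mem_filter, mem_range]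
  exact ⟨fun h => h.2, fun h => ⟨hA b h, h⟩⟩

lemma tri_free_DS {s i r k : ℕ} (hr : r ≤ s) (hri : r ≤ i) (x y z : Fin n)
    (h1 : (DS n s i r k hr).Adj x y) (h2 : (DS n s i r k hr).Adj y z)
    (h3 : (DS n s i r k hr).Adj x z) : False := by
  change (R s i r k x y ∨ R s i r k y x) at h1
  change (R s i r k y z ∨ R s i r k z y) at h2
  change (R s i r k x z ∨ R s i r k z x) at h3
  unfold R at h1 h2 h3
  omega

lemma exists_graph {s i r k : ℕ} (hr : r ≤ s) (hri : r ≤ i) (hn : 2 + s + i + 2 * k ≤ n) :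
    ∃ G : SimpleGraph (Fin n), #G.edgeFinset = s + i + k ∧
      #(con G) = s.choose 2 + i.choose 2 + r := by
  refine ⟨DS n s i r k hr, ?_, ?_⟩
  · have h := (DS n s i r k hr).sum_degrees_eq_twice_card_edges
    have h1 : ∑ v : Fin n, (DS n s i r k hr).degree v = 2 * (s + i + k) := by
      simp_rw [degree_DS hr hri hn, card_NN hr hri]
      rw [Fin.sum_univ_eq_sum_range (fun a => (if a = 0 then s else 0) + (if a = 1 then i else 0) +
        (if a ∈ Ico 2 (2 + s) then 1 else 0) +
        (if a ∈ Ico (2 + s - r) (2 + s - r + i) then 1 else 0) +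
        (if a ∈ Ico (2 + s - r + i) (2 + s - r + i + 2 * k) then 1 else 0)) n]
      rw [sum_add_distrib, sum_add_distrib, sum_add_distrib, sum_add_distrib]
      rw [sum_ind _ (by intro b hb; rw [mem_Ico] at hb; omega),
        sum_ind _ (by intro b hb; rw [mem_Ico] at hb; omega),
        sum_ind _ (by intro b hb; rw [mem_Ico] at hb; omega),
        sum_ite_eq', sum_ite_eq', if_pos (mem_range.2 (by omega)),
        if_pos (mem_range.2 (by omega)), Nat.card_Ico, Nat.card_Ico, Nat.card_Ico]
      omega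
    rw [h1] at h
    omega
  · rw [con_eq_sum _ (fun x y z h1 h2 h3 => tri_free_DS hr hri x y z h1 h2 h3)]
    simp_rw [degree_DS hr hri hn, choose_NN hr hri]
    rw [Fin.sum_univ_eq_sum_range (fun a => (if a = 0 then s.choose 2 else 0) +
      (if a = 1 then i.choose 2 else 0) + (if a ∈ Ico (2 + s - r) (2 + s) then 1 else 0)) n]
    rw [sum_add_distrib, sum_add_distrib, sum_ind _ (by intro b hb; rw [mem_Ico] at hb; omega),
      sum_ite_eq', sum_ite_eq', if_pos (mem_range.2 (by omega)),
      if_pos (mem_range.2 (by omega)), Nat.card_Ico]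
    omega

/-! ### Numbers -/

lemma choose_step (m : ℕ) : (m + 1).choose 2 = m.choose 2 + m := by
  rw [Nat.choose_succ_succ' m 1, Nat.choose_one_right]
  exact add_comm _ _

lemma bracket (x : ℕ) : ∃ i, i.choose 2 ≤ x ∧ x < (i + 1).choose 2 := by
  induction x with
  | zero => exact ⟨1, by simp, by simp⟩
  | succ x ih =>
    obtain ⟨i, h1, h2⟩ := ih
    by_cases h : x + 1 < (i + 1).choose 2
    · exact ⟨i, by omega, h⟩
    · refine ⟨i + 1, by omega, ?_⟩
      rw [choose_step (i + 1)]
      omega

lemma decomp {t c : ℕ} (hc : c ≤ t.choose 2)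
    (hg : ∀ s, s < t → ¬ (s.choose 2 + (t + 1 - s).choose 2 < c ∧ c < (s + 1).choose 2)) :
    ∃ s i r, r ≤ s ∧ r ≤ i ∧ s + i ≤ t ∧ c = s.choose 2 + i.choose 2 + r := by
  rcases Nat.eq_zero_or_pos t with rfl | ht
  · exact ⟨0, 0, 0, le_rfl, le_rfl, le_rfl, by simpa using hc⟩
  · obtain ⟨s, h1, h2⟩ := bracket c
    have hst : s ≤ t := by
      by_contra hlt
      push Not at hlt
      have h3 : (t + 1).choose 2 ≤ s.choose 2 := Nat.choose_le_choose 2 hlt
      rw [choose_step] at h3
      omega
    rcases Nat.eq_or_lt_of_le hst with rfl | hlt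
    · exact ⟨s, 0, 0, Nat.zero_le _, le_rfl, by omega, by simp; omega⟩
    · have h3 : c ≤ s.choose 2 + (t + 1 - s).choose 2 := by
        by_contra h4
        push Not at h4
        exact hg s hlt ⟨h4, h2⟩
      rw [choose_step] at h2
      obtain ⟨i, h5, h6⟩ := bracket (c - s.choose 2)
      rw [choose_step] at h6
      by_cases hi : i ≤ t - s
      · exact ⟨s, i, c - s.choose 2 - i.choose 2, by omega, by omega, by omega, by omega⟩
      · push Not at hi
        have h7 : (t - s + 1).choose 2 ≤ i.choose 2 := Nat.choose_le_choose 2 hi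
        have h8 : t + 1 - s = t - s + 1 := by omega
        rw [h8] at h3
        have h9 := choose_step (t - s)
        exact ⟨s, t - s, t - s, by omega, le_rfl, by omega, by omega⟩

end

/-- **MP_5df1f6_co, Q1 (full answer).**  Let `n ≥ 3` and `t (t + 1) < n - 2` (that is,
`t ≤ t_max`).  The integers of `[a_t, b_t]` missing from `S_t` are exactly the `m ∈ [a_t, b_t]`
such that `m - a_t` is odd or `m = b_t - 2 c` for some `c` with
`C(s,2) + C(t+1-s,2) < c < C(s+1,2)` for some `0 ≤ s < t`. -/
theorem result (n t : ℕ) (hn : 3 ≤ n) (ht : t * (t + 1) < n - 2) :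
    {m : ℤ | aa n t ≤ m ∧ m ≤ bb n t ∧ m ∉ S n t} =
    {m : ℤ | aa n t ≤ m ∧ m ≤ bb n t ∧ (Odd (m - aa n t) ∨
      ∃ s c : ℕ, s < t ∧ s.choose 2 + (t + 1 - s).choose 2 < c ∧ c < (s + 1).choose 2 ∧
        m = bb n t - 2 * c)} := by
  classical
  have hab : bb n t - aa n t = 2 * (t.choose 2 : ℤ) := by
    rw [two_choose]
    unfold aa bb
    ring
  have hf : ∀ G : SimpleGraph (Fin n), #G.edgeFinset = t →
      (frus G : ℤ) = bb n t - 2 * #(con G) := by
    intro G hG
    have h := frus_add G
    rw [hG] at h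
    have h1 : ((frus G + 2 * #(con G) : ℕ) : ℤ) = ((t * (n - 2) : ℕ) : ℤ) := by rw [h]
    push_cast [Nat.cast_sub (show 2 ≤ n by omega)] at h1
    unfold bb
    linarith
  ext m
  simp only [Set.mem_ofPred_eq]
  constructor
  · rintro ⟨h1, h2, h3⟩
    refine ⟨h1, h2, ?_⟩
    by_contra hcon
    push Not at hcon
    obtain ⟨h4, h5⟩ := hcon
    rw [Int.not_odd_iff_even] at h4
    obtain ⟨u, hu⟩ := h4
    -- `m = b_t - 2 c`
    obtain ⟨c, hc⟩ : ∃ c : ℕ, (c : ℤ) = (t.choose 2 : ℤ) - u := by
      refine ⟨((t.choose 2 : ℤ) - u).toNat, Int.toNat_of_nonneg ?_⟩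
      linarith
    have hmc : m = bb n t - 2 * c := by linarith
    have hct : c ≤ t.choose 2 := by
      have : (c : ℤ) ≤ (t.choose 2 : ℤ) := by linarith
      exact_mod_cast this
    obtain ⟨s, i, r, g1, g2, g3, g4⟩ := decomp hct (fun s hs hh => h5 s c hs hh.1 hh.2 hmc)
    have hbig : 2 + s + i + 2 * (t - s - i) ≤ n := by
      have : 2 * t ≤ t * (t + 1) := by
        rcases Nat.eq_zero_or_pos t with rfl | ht0
        · simp
        · nlinarith
      omega
    obtain ⟨G, hG1, hG2⟩ := exists_graph g1 g2 hbig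
    apply h3
    refine ⟨G, ?_, ?_⟩
    · convert hG1 using 1
      omega
    · rw [hf G (by convert hG1 using 1; omega), hmc]
      have : #(con G) = c := by rw [g4]; exact hG2
      rw [this]
  · rintro ⟨h1, h2, h3⟩
    refine ⟨h1, h2, ?_⟩
    rintro ⟨G, hG1, hG2⟩
    have hG1' : #G.edgeFinset = t := by convert hG1
    have h4 := hf G hG1'
    rcases h3 with h3 | ⟨s, c, hs, g1, g2, g3⟩
    · rw [← Int.not_even_iff_odd] at h3
      apply h3
      refine ⟨(t.choose 2 : ℤ) - #(con G), ?_⟩
      linarith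
    · have h5 : #(con G) = c := by
        have : (#(con G) : ℤ) = c := by linarith
        exact_mod_cast this
      apply gap G (s := s)
      · rw [hG1']
        exact hs
      · rw [hG1', h5]
        exact g1
      · rw [h5]
        exact g2

end Pool.Agent.Results.MP_5df1f6_co.MissingCounts
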